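import Pool.Agent.Helper63.GB2.Defs

/-!
# MP_02f2ca_gt, dimension two : module N11 (decomposition of one level, volume of the pieces)
-/

open Set MeasureTheory Filter Topology

namespace GB

theorem Fl_flux (a₁ : ℝ) (h0 : 0 < a₁) (h1 : a₁ < 1) (G : Set ℝ) (hG : Per G) (z : ℂ)
    (hz : z.re ≠ 2 + a₁) (hz' : z.re ≠ 3 - a₁) :
    Fl a₁ G z = ∑ u : Fin 2, ((Qp a₁ G u).indicator (fun _ => (1 : ℝ)) z
      - (Qp a₁ G u).indicator (fun _ => (1 : ℝ)) (z - ((u : ℕ) - a₁ : ℂ))) := by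
  classical
  have hre0 : (z - (((0 : Fin 2) : ℕ) - a₁ : ℂ)).re = z.re + a₁ := by simp
  have him0 : (z - (((0 : Fin 2) : ℕ) - a₁ : ℂ)).im = z.im := by simp
  have hre1 : (z - (((1 : Fin 2) : ℕ) - a₁ : ℂ)).re = z.re + a₁ - 1 := by
    simp
    ring
  have him1 : (z - (((1 : Fin 2) : ℕ) - a₁ : ℂ)).im = z.im := by simp
  have hper : z.re + a₁ - 1 ∈ G ↔ z.re + a₁ ∈ G := by
    have := hG (z.re + a₁ - 1)
    rw [sub_add_cancel] at this
    exact this.symm
  have e1 : Fl a₁ G z = (if z ∈ sq2 then 1 else 0) *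
      ((if z.re ∈ G then 1 else 0) - (if z.re + a₁ ∈ G then (1 : ℝ) else 0)) := by
    unfold Fl cob
    simp only [indicator_apply]
    split_ifs <;> simp
  have e2 : (Qp a₁ G 0).indicator (fun _ => (1 : ℝ)) z =
      if z ∈ sq2 ∧ z.re ∈ G ∧ 2 + a₁ < z.re then 1 else 0 := by
    simp only [indicator_apply, Qp, if_true, mem_setOf_eq]
  have e3 : (Qp a₁ G 1).indicator (fun _ => (1 : ℝ)) z =
      if z ∈ sq2 ∧ z.re ∈ G ∧ z.re < 2 + a₁ then 1 else 0 := by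
    simp only [indicator_apply, Qp, one_ne_zero, if_false, mem_setOf_eq]
  have e4 : (Qp a₁ G 0).indicator (fun _ => (1 : ℝ)) (z - (((0 : Fin 2) : ℕ) - a₁ : ℂ)) =
      if (2 < z.re ∧ z.re < 3 - a₁ ∧ 0 < z.im ∧ z.im < 1) ∧ z.re + a₁ ∈ G then 1 else 0 := by
    simp only [indicator_apply, Qp, if_true, mem_setOf_eq, sq2, mem_Ioo, hre0, him0]
    congr 1
    apply propext
    constructor
    · rintro ⟨⟨⟨h2, h3⟩, h4, h5⟩, h6, h7⟩
      exact ⟨⟨by linarith, by linarith, h4, h5⟩, h6⟩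
    · rintro ⟨⟨h2, h3, h4, h5⟩, h6⟩
      exact ⟨⟨⟨by linarith, by linarith⟩, h4, h5⟩, h6, by linarith⟩
  have e5 : (Qp a₁ G 1).indicator (fun _ => (1 : ℝ)) (z - (((1 : Fin 2) : ℕ) - a₁ : ℂ)) =
      if (3 - a₁ < z.re ∧ z.re < 3 ∧ 0 < z.im ∧ z.im < 1) ∧ z.re + a₁ ∈ G then 1 else 0 := by
    simp only [indicator_apply, Qp, one_ne_zero, if_false, mem_setOf_eq, sq2, mem_Ioo, hre1, him1,
      hper]
    congr 1
    apply propext
    constructor
    · rintro ⟨⟨⟨h2, h3⟩, h4, h5⟩, h6, h7⟩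
      exact ⟨⟨by linarith, by linarith, h4, h5⟩, h6⟩
    · rintro ⟨⟨h2, h3, h4, h5⟩, h6⟩
      exact ⟨⟨⟨by linarith, by linarith⟩, h4, h5⟩, h6, by linarith⟩
  rw [Fin.sum_univ_two, e1, e2, e3, e4, e5]
  by_cases hi : 0 < z.im ∧ z.im < 1
  · by_cases hr : 2 < z.re ∧ z.re < 3
    · have hs : z ∈ sq2 := ⟨hr, hi⟩
      rcases lt_or_gt_of_ne hz with h2 | h2
      · have h2' : ¬ (2 + a₁ < z.re) := not_lt.mpr h2.le
        rcases lt_or_gt_of_ne hz' with h3 | h3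
        · have h3' : ¬ (3 - a₁ < z.re) := not_lt.mpr h3.le
          by_cases h4 : z.re ∈ G <;> by_cases h5 : z.re + a₁ ∈ G <;>
            simp [hs, hi, hr, h2, h2', h3, h3', h4, h5]
        · have h3' : ¬ (z.re < 3 - a₁) := not_lt.mpr h3.le
          by_cases h4 : z.re ∈ G <;> by_cases h5 : z.re + a₁ ∈ G <;>
            simp [hs, hi, hr, h2, h2', h3, h3', h4, h5]
      · have h2' : ¬ (z.re < 2 + a₁) := not_lt.mpr h2.le
        rcases lt_or_gt_of_ne hz' with h3 | h3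
        · have h3' : ¬ (3 - a₁ < z.re) := not_lt.mpr h3.le
          by_cases h4 : z.re ∈ G <;> by_cases h5 : z.re + a₁ ∈ G <;>
            simp [hs, hi, hr, h2, h2', h3, h3', h4, h5]
        · have h3' : ¬ (z.re < 3 - a₁) := not_lt.mpr h3.le
          by_cases h4 : z.re ∈ G <;> by_cases h5 : z.re + a₁ ∈ G <;>
            simp [hs, hi, hr, h2, h2', h3, h3', h4, h5]
    · have hs : z ∉ sq2 := fun h => hr h.1
      have h4 : ¬ ((2 < z.re ∧ z.re < 3 - a₁ ∧ 0 < z.im ∧ z.im < 1) ∧ z.re + a₁ ∈ G) := by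
        rintro ⟨⟨h2, h3, -, -⟩, -⟩
        exact hr ⟨h2, by linarith⟩
      have h5 : ¬ ((3 - a₁ < z.re ∧ z.re < 3 ∧ 0 < z.im ∧ z.im < 1) ∧ z.re + a₁ ∈ G) := by
        rintro ⟨⟨h2, h3, -, -⟩, -⟩
        exact hr ⟨by linarith, h3⟩
      rw [if_neg h4, if_neg h5]
      simp [hs]
  · have hs : z ∉ sq2 := fun h => hi h.2
    have h4 : ¬ ((2 < z.re ∧ z.re < 3 - a₁ ∧ 0 < z.im ∧ z.im < 1) ∧ z.re + a₁ ∈ G) := by
      rintro ⟨⟨-, -, h2, h3⟩, -⟩
      exact hi ⟨h2, h3⟩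
    have h5 : ¬ ((3 - a₁ < z.re ∧ z.re < 3 ∧ 0 < z.im ∧ z.im < 1) ∧ z.re + a₁ ∈ G) := by
      rintro ⟨⟨-, -, h2, h3⟩, -⟩
      exact hi ⟨h2, h3⟩
    rw [if_neg h4, if_neg h5]
    simp [hs]

theorem Qp_vol (a₁ : ℝ) (G : Set ℝ) (hG : Per G) (hf : volume (frontier G) = 0) (μ : ℝ)
    (hμ : 0 < μ) : ∃ n₀ : ℕ, ∀ L : ℕ, n₀ ≤ L → ∀ u : Fin 2,
      (volume (Metric.cthickening (2 / (L : ℝ)) (Qp a₁ G u))).toReal ≤
        (volume (G ∩ Icc 0 1)).toReal + μ := by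
  set S : Set ℝ := closure G ∩ Icc 2 3 with hS
  have hSc : IsCompact S := isCompact_Icc.inter_left isClosed_closure
  set Kc : Set ℂ := S ×ℂ Icc (0 : ℝ) 1 with hK
  have hKc : IsCompact Kc := hSc.reProdIm isCompact_Icc
  have hper2 : ∀ x, x + 2 ∈ G ↔ x ∈ G := by
    intro x
    have h := hG (x + 1)
    rw [add_assoc, one_add_one_eq_two] at h
    exact h.trans (hG x)
  have hSvol : volume S = volume (G ∩ Icc 0 1) := by
    have h1 : volume S = volume (G ∩ Icc 2 3) := by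
      apply le_antisymm
      · have : S ⊆ (G ∩ Icc 2 3) ∪ frontier G := by
          rintro x ⟨hx, hx'⟩
          rw [closure_eq_self_union_frontier] at hx
          rcases hx with hx | hx
          · exact Or.inl ⟨hx, hx'⟩
          · exact Or.inr hx
        refine (measure_mono this).trans ((measure_union_le _ _).trans ?_)
        rw [hf, add_zero]
      · exact measure_mono (inter_subset_inter_left _ subset_closure)
    have h2 := measure_preimage_add_right (volume : Measure ℝ) 2 (G ∩ Icc 2 3)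
    have h3 : (fun h => h + 2) ⁻¹' (G ∩ Icc 2 3) = G ∩ Icc (0 : ℝ) 1 := by
      ext x
      simp only [mem_preimage, mem_inter_iff, hper2, mem_Icc]
      constructor
      · rintro ⟨h, h', h''⟩
        exact ⟨h, by linarith, by linarith⟩
      · rintro ⟨h, h', h''⟩
        exact ⟨h, by linarith, by linarith⟩
    rw [h1, ← h2, h3]
  have hKvol : volume Kc = volume (G ∩ Icc 0 1) := by
    have h1 : Kc = Complex.measurableEquivRealProd ⁻¹' (S ×ˢ Icc (0 : ℝ) 1) := rfl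
    rw [h1, Complex.volume_preserving_equiv_real_prod.measure_preimage
      ((hSc.isClosed.measurableSet.prod measurableSet_Icc).nullMeasurableSet),
      Measure.volume_eq_prod, Measure.prod_prod, hSvol]
    simp
  have hfin : volume (G ∩ Icc (0 : ℝ) 1) ≠ ⊤ :=
    ne_top_of_le_ne_top (by simp) (measure_mono (inter_subset_right : _ ⊆ Icc (0 : ℝ) 1))
  have hsub : ∀ u : Fin 2, Qp a₁ G u ⊆ Kc := by
    intro u z hz
    have hz2 : z ∈ sq2 ∧ z.re ∈ G := by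
      unfold Qp at hz
      split_ifs at hz
      · exact ⟨hz.1, hz.2.1⟩
      · exact ⟨hz.1, hz.2.1⟩
    exact ⟨⟨subset_closure hz2.2, Ioo_subset_Icc_self hz2.1.1⟩, Ioo_subset_Icc_self hz2.1.2⟩
  have hlim := tendsto_measure_cthickening_of_isCompact (μ := (volume : Measure ℂ)) hKc
  rw [hKvol] at hlim
  have hlt : volume (G ∩ Icc (0 : ℝ) 1) < volume (G ∩ Icc (0 : ℝ) 1) + ENNReal.ofReal μ :=
    ENNReal.lt_add_right hfin (by simpa using hμ)
  have hev := hlim.eventually (gt_mem_nhds hlt)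
  have htend : Tendsto (fun L : ℕ => 2 / (L : ℝ)) atTop (𝓝 0) :=
    tendsto_const_div_atTop_nhds_zero_nat 2
  obtain ⟨n₀, hn₀⟩ := eventually_atTop.mp (htend.eventually hev)
  refine ⟨n₀, fun L hL u => ?_⟩
  have h1 := (measure_mono (μ := (volume : Measure ℂ))
    (Metric.cthickening_subset_of_subset (2 / (L : ℝ)) (hsub u))).trans (hn₀ L hL).le
  have h2 := ENNReal.toReal_mono (by simp [hfin]) h1
  rw [ENNReal.toReal_add hfin ENNReal.ofReal_ne_top, ENNReal.toReal_ofReal hμ.le] at h2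
  exact h2

end GB
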